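import Mathlib
import Pool.Agent.V8H97.CRG.Half

/-!
# MP_076b30_co: Q1 for graphs with a balanced clique spectrum

`ed H p` is the infimum of `g_K(p)` over all coloured regularity graphs `K` in `K(H)`, `edB H N p` the
infimum over those of order at most `N` (definitions in `Pool/Agent/V8H97/CRG/Half.lean`, written as in
the frozen statement `S07015`).
-/

open Finset
open Pool.Agent.V8H97.CRG Pool.Agent.V8H97.CRG.Half

namespace Pool.Agent.Results.MP_076b30_co.CliqueSpectrum

/-- the vertices of `H` can be partitioned into `r` independent sets and `s` cliques (some of them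
possibly empty) -/
def Part {n : ℕ} (H : SimpleGraph (Fin n)) (r s : ℕ) : Prop :=
  ∃ f : Fin n → Fin r ⊕ Fin s, ∀ u v : Fin n, u ≠ v → f u = f v →
    (H.Adj u v ↔ (f u).isRight = true)

/-- lower bound at `1/2` -/
lemma low {n : ℕ} (H : SimpleGraph (Fin n)) (M : ℕ) (hM : 0 < M)
    (hP : ∀ r s, M < r + s → Part H r s)
    (k' : ℕ) (hk' : 0 < k') (vb : Fin k' → Bool) (ec : Fin k' → Fin k' → Fin 3)
    (hec : ∀ i j, ec i j = ec j i) (hnot : ¬ CHom H k' vb ec) :
    1 / (2 * (M : ℝ)) ≤ gval k' vb ec (1 / 2) := by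
  classical
  haveI : Nonempty (Fin k') := ⟨⟨0, hk'⟩⟩
  obtain ⟨x, hx, hmin, h2, -⟩ := exists_core (mat vb ec (1 / 2)) (mat_symm vb ec hec (1 / 2))
  obtain ⟨S, hS⟩ : ∃ S : Finset (Fin k'), S = univ.filter fun i => x i ≠ 0 := ⟨_, rfl⟩
  have hSm : ∀ i, i ∈ S ↔ x i ≠ 0 := by intro i; rw [hS, mem_filter]; simp
  have hd : ∀ i, mat vb ec (1 / 2) i i = 1 / 2 := by
    intro i
    unfold mat
    rw [if_pos rfl]
    split_ifs <;> norm_num
  have hgray : ∀ i ∈ S, ∀ j ∈ S, i ≠ j → ec i j = 1 := by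
    intro i hi j hj hij
    have h := pair_ineq (mat vb ec (1 / 2)) (mat_symm vb ec hec (1 / 2)) x h2 i j hij
      ((hSm i).1 hi) ((hSm j).1 hj)
    rw [hd, hd] at h
    have : ∀ c : Fin 3, c = 0 ∨ c = 1 ∨ c = 2 := by decide
    rcases this (ec i j) with h3 | h3 | h3
    · unfold mat at h
      rw [if_neg hij, h3, if_pos rfl] at h
      norm_num at h
    · exact h3
    · unfold mat at h
      rw [if_neg hij, h3, if_neg (by decide), if_pos rfl] at h
      norm_num at h
  have hcard : S.card ≤ M := by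
    by_contra hge
    push Not at hge
    obtain ⟨W, hW⟩ : ∃ W, W = S.filter fun i => vb i = false := ⟨_, rfl⟩
    obtain ⟨B, hB⟩ : ∃ B, B = S.filter fun i => vb i = true := ⟨_, rfl⟩
    have hWB : W.card + B.card = S.card := by
      rw [hW, hB, ← card_union_of_disjoint]
      · congr 1
        ext i
        simp only [mem_union, mem_filter]
        cases vb i <;> simp
      · rw [disjoint_left]
        intro i h1 h2
        have e1 := (mem_filter.1 h1).2
        have e2 := (mem_filter.1 h2).2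
        rw [e1] at e2
        exact absurd e2 (by decide)
    have hWm : ∀ i ∈ W, i ∈ S ∧ vb i = false := fun i hi => by
      rw [hW] at hi; exact mem_filter.1 hi
    have hBm : ∀ i ∈ B, i ∈ S ∧ vb i = true := fun i hi => by
      rw [hB] at hi; exact mem_filter.1 hi
    obtain ⟨f, hf⟩ := hP W.card B.card (by omega)
    obtain ⟨e, he⟩ : ∃ e : Fin W.card ⊕ Fin B.card → Fin k', e = Sum.elim
      (fun a => ((W.equivFin.symm a : W) : Fin k')) (fun b => ((B.equivFin.symm b : B) : Fin k')) :=
      ⟨_, rfl⟩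
    have hvb : ∀ y, vb (e y) = y.isRight := by
      intro y
      rw [he]
      rcases y with a | b
      · exact (hWm _ (W.equivFin.symm a).2).2
      · exact (hBm _ (B.equivFin.symm b).2).2
    have heS : ∀ y, e y ∈ S := by
      intro y
      rw [he]
      rcases y with a | b
      · exact (hWm _ (W.equivFin.symm a).2).1
      · exact (hBm _ (B.equivFin.symm b).2).1
    have hinj : ∀ y z, e y = e z → y = z := by
      intro y z hyz
      have h1 := hvb y
      rw [hyz, hvb z] at h1
      rcases y with a | b <;> rcases z with c | d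
      · rw [he] at hyz
        have : W.equivFin.symm a = W.equivFin.symm c := Subtype.ext hyz
        rw [W.equivFin.symm.injective this]
      · exact absurd h1 (by simp)
      · exact absurd h1 (by simp)
      · rw [he] at hyz
        have : B.equivFin.symm b = B.equivFin.symm d := Subtype.ext hyz
        rw [B.equivFin.symm.injective this]
    apply hnot
    refine ⟨fun u => e (f u), fun u v huv => ⟨fun h => ?_, fun h => ?_⟩⟩
    · have h1 := hf u v huv (hinj _ _ h)
      simp only [hvb]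
      refine ⟨fun h2 => h1.1 h2, fun h2 => ?_⟩
      rw [h1] at h2
      simpa using h2
    · simp only
      rw [hgray _ (heS _) _ (heS _) h]
      exact ⟨fun _ => by decide, fun _ => by decide⟩
  have hq : qf (mat vb ec (1 / 2)) x = 1 / 2 * ∑ i ∈ S, x i ^ 2 := by
    unfold qf
    have : ∀ i, ∑ j, x i * x j * mat vb ec (1 / 2) i j = if i ∈ S then 1 / 2 * x i ^ 2 else 0 := by
      intro i
      by_cases hi : i ∈ S
      · rw [if_pos hi, Finset.sum_eq_single i]
        · rw [hd]; ring
        · intro j _ hji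
          by_cases hj : j ∈ S
          · have : mat vb ec (1 / 2) i j = 0 := by
              unfold mat
              rw [if_neg (fun e => hji e.symm), hgray i hi j hj (fun e => hji e.symm),
                if_neg (by decide), if_neg (by decide)]
            rw [this, mul_zero]
          · have : x j = 0 := by
              by_contra h; exact hj ((hSm j).2 h)
            rw [this]; ring
        · intro h; exact absurd (mem_univ i) h
      · have : x i = 0 := by
          by_contra h; exact hi ((hSm i).2 h)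
        rw [if_neg hi]
        refine Finset.sum_eq_zero fun j _ => ?_
        rw [this]; ring
    simp only [this]
    rw [Finset.sum_ite_mem, Finset.univ_inter, Finset.mul_sum]
  have hsum : ∑ i ∈ S, x i = 1 := by
    rw [← hx.2]
    refine Finset.sum_subset (subset_univ S) fun i _ hi => ?_
    by_contra h; exact hi ((hSm i).2 h)
  have hcs : (∑ i ∈ S, x i) ^ 2 ≤ S.card * ∑ i ∈ S, x i ^ 2 := sq_sum_le_card_mul_sum_sq
  rw [hsum] at hcs
  have hN : (0 : ℝ) < M := by exact_mod_cast hM
  have hcN : (S.card : ℝ) ≤ M := by exact_mod_cast hcard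
  have hs0 : 0 ≤ ∑ i ∈ S, x i ^ 2 := Finset.sum_nonneg fun i _ => sq_nonneg _
  refine le_gval k' hk' vb ec (1 / 2) _ fun z hz => ?_
  refine le_trans ?_ (hmin z hz)
  rw [hq, div_le_iff₀ (by positivity)]
  have : (S.card : ℝ) * ∑ i ∈ S, x i ^ 2 ≤ M * ∑ i ∈ S, x i ^ 2 :=
    mul_le_mul_of_nonneg_right hcN hs0
  nlinarith

/-- no homomorphism to the gray graph -/
lemma no_hom {n : ℕ} (H : SimpleGraph (Fin n)) (r s : ℕ) (hP : ¬ Part H r s) :
    ¬ CHom H (r + s) (fun i => (finSumFinEquiv.symm i).isRight) (fun _ _ => 1) := by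
  rintro ⟨φ, hφ⟩
  apply hP
  refine ⟨fun u => finSumFinEquiv.symm (φ u), fun u v huv h => ?_⟩
  have h1 := (hφ u v huv).1 (finSumFinEquiv.symm.injective h)
  refine ⟨h1.1, fun h2 => ?_⟩
  by_contra h3
  have h4 := h1.2 h3
  simp only at h2 h4
  rw [h2] at h4
  exact absurd h4 (by decide)

/-- upper bound by the gray graph -/
lemma up {n : ℕ} (H : SimpleGraph (Fin n)) (r s : ℕ) (hrs : 0 < r + s) (hP : ¬ Part H r s)
    (p : ℝ) (h0 : 0 < p) (h1 : p < 1) : ed H p ≤ 1 / (r / p + s / (1 - p)) := by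
  have h1' : 0 < 1 - p := by linarith
  obtain ⟨D, hD⟩ : ∃ D : ℝ, D = r / p + s / (1 - p) := ⟨_, rfl⟩
  have hD0 : 0 < D := by
    rw [hD]
    rcases Nat.eq_zero_or_pos r with h | h
    · have hs : (0 : ℝ) < s := by
        have : 0 < s := by omega
        exact_mod_cast this
      have : (0 : ℝ) ≤ r / p := by positivity
      have : (0 : ℝ) < s / (1 - p) := by positivity
      linarith
    · have hr : (0 : ℝ) < r := by exact_mod_cast h
      have : (0 : ℝ) < r / p := by positivity
      have : (0 : ℝ) ≤ s / (1 - p) := by positivity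
      linarith
  rw [← hD]
  refine (ed_le H p h0.le h1.le (r + s) (fun i => (finSumFinEquiv.symm i).isRight) (fun _ _ => 1)
    hrs (fun _ _ => rfl) (no_hom H r s hP)).trans ?_
  obtain ⟨x, hx⟩ : ∃ x : Fin (r + s) → ℝ, x = fun i =>
    (if (finSumFinEquiv.symm i).isRight = true then 1 / (1 - p) else 1 / p) / D := ⟨_, rfl⟩
  have hxs : ∑ i, x i = 1 := by
    rw [← Equiv.sum_comp finSumFinEquiv x, Fintype.sum_sum_type]
    have e1 : ∀ a : Fin r, x (finSumFinEquiv (Sum.inl a)) = 1 / p / D := by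
      intro a
      rw [hx]
      simp only [Equiv.symm_apply_apply, Sum.isRight_inl, Bool.false_eq_true, if_false]
    have e2 : ∀ a : Fin s, x (finSumFinEquiv (Sum.inr a)) = 1 / (1 - p) / D := by
      intro a
      rw [hx]
      simp only [Equiv.symm_apply_apply, Sum.isRight_inr, if_true]
    rw [Finset.sum_congr rfl fun a _ => e1 a, Finset.sum_congr rfl fun a _ => e2 a]
    rw [Finset.sum_const, Finset.sum_const, Finset.card_univ, Finset.card_univ, Fintype.card_fin,
      Fintype.card_fin, nsmul_eq_mul, nsmul_eq_mul]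
    have : (r : ℝ) * (1 / p / D) + s * (1 / (1 - p) / D) = (r / p + s / (1 - p)) / D := by
      ring
    rw [this, ← hD, div_self hD0.ne']
  have hxS : Smp x := by
    refine ⟨fun i => ?_, hxs⟩
    rw [hx]
    simp only
    split_ifs <;> positivity
  refine (gval_le (r + s) _ _ p h0.le h1.le x hxS).trans (le_of_eq ?_)
  unfold qf
  have : ∀ i : Fin (r + s), ∑ j, x i * x j *
      mat (fun i => (finSumFinEquiv.symm i : Fin r ⊕ Fin s).isRight) (fun _ _ => 1) p i j =
      x i * (1 / D) := by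
    intro i
    rw [Finset.sum_eq_single i]
    · unfold mat
      rw [if_pos rfl]
      simp only [hx]
      split_ifs
      · field_simp
      · field_simp
    · intro j _ hj
      unfold mat
      rw [if_neg (fun e => hj e.symm), if_neg (show ¬ (1 : Fin 3) = 0 by decide),
        if_neg (show ¬ (1 : Fin 3) = 2 by decide), mul_zero]
    · intro h; exact absurd (mem_univ i) h
  rw [Finset.sum_congr rfl fun i _ => this i, ← Finset.sum_mul, hxs, one_mul]

/-- concavity of `ed` -/
lemma ed_concave {n : ℕ} (H : SimpleGraph (Fin n)) (p q s : ℝ) (hp : p ∈ Set.Icc (0 : ℝ) 1)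
    (hq : q ∈ Set.Icc (0 : ℝ) 1) (hs0 : 0 ≤ s) (hs1 : s ≤ 1) :
    (1 - s) * ed H p + s * ed H q ≤ ed H ((1 - s) * p + s * q) := by
  by_cases hne : ∃ (k : ℕ) (vb : Fin k → Bool) (ec : Fin k → Fin k → Fin 3),
    0 < k ∧ (∀ i j, ec i j = ec j i) ∧ ¬ CHom H k vb ec
  · obtain ⟨k, vb, ec, hk, hec, hnot⟩ := hne
    refine le_csInf ⟨_, k, vb, ec, hk, hec, hnot, rfl⟩ ?_
    rintro e ⟨k, vb, ec, hk, hec, hnot, rfl⟩
    refine le_gval k hk vb ec _ _ fun x hx => ?_
    rw [qf_affine]
    have g1 := (ed_le H p hp.1 hp.2 k vb ec hk hec hnot).trans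
      (gval_le k vb ec p hp.1 hp.2 x hx)
    have g2 := (ed_le H q hq.1 hq.2 k vb ec hk hec hnot).trans
      (gval_le k vb ec q hq.1 hq.2 x hx)
    exact add_le_add (mul_le_mul_of_nonneg_left g1 (by linarith))
      (mul_le_mul_of_nonneg_left g2 hs0)
  · have : ∀ p, ed H p = 0 := by
      intro p
      unfold ed
      have : {e : ℝ | ∃ (k : ℕ) (vb : Fin k → Bool) (ec : Fin k → Fin k → Fin 3),
          0 < k ∧ (∀ i j, ec i j = ec j i) ∧ ¬ CHom H k vb ec ∧
          e = gval k vb ec p} = ∅ := by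
        ext e
        simp only [Set.mem_setOf_eq, Set.mem_empty_iff_false, iff_false]
        rintro ⟨k, vb, ec, hk, hec, hnot, -⟩
        exact hne ⟨k, vb, ec, hk, hec, hnot⟩
      rw [this, Real.sInf_empty]
    rw [this, this, this]
    simp

/-- a maximiser in the open interval -/
lemma max_mid {n : ℕ} (H : SimpleGraph (Fin n)) (h1 : ed H (1 / 4) ≤ ed H (1 / 2))
    (h3 : ed H (3 / 4) ≤ ed H (1 / 2)) :
    ∃ p : ℝ, 1 / 4 < p ∧ p < 3 / 4 ∧ ∀ q ∈ Set.Icc (0 : ℝ) 1, ed H q ≤ ed H p := by
  have hcont : ContinuousOn (ed H) (Set.Icc (1 / 4 : ℝ) (3 / 4)) := by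
    have hconc : ConcaveOn ℝ (Set.Ioo (0 : ℝ) 1) (ed H) := by
      refine ⟨convex_Ioo 0 1, ?_⟩
      intro x hx y hy α β hα hβ hαβ
      have h := ed_concave H x y β ⟨hx.1.le, hx.2.le⟩ ⟨hy.1.le, hy.2.le⟩ hβ (by linarith)
      have e : (1 - β) = α := by linarith
      rw [e] at h
      simpa only [smul_eq_mul] using h
    refine (hconc.continuousOn isOpen_Ioo).mono ?_
    intro x hx
    exact ⟨by linarith [hx.1], by linarith [hx.2]⟩
  obtain ⟨p, hp, hpmax⟩ := isCompact_Icc.exists_isMaxOn
    (⟨1 / 2, by norm_num, by norm_num⟩ : (Set.Icc (1 / 4 : ℝ) (3 / 4)).Nonempty) hcont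
  have hmax : ∀ q ∈ Set.Icc (1 / 4 : ℝ) (3 / 4), ed H q ≤ ed H p := fun q hq => hpmax hq
  have hout : ∀ q ∈ Set.Icc (0 : ℝ) 1, ed H q ≤ max (ed H (1 / 2)) (ed H p) := by
    intro q hq
    by_cases h4 : q < 1 / 4
    · refine le_max_of_le_left ?_
      by_contra hlt
      push Not at hlt
      have hd : 0 < 1 / 2 - q := by linarith
      obtain ⟨s, hs⟩ : ∃ s, s = (1 / 4) / (1 / 2 - q) := ⟨_, rfl⟩
      have hs0 : 0 < s := by rw [hs]; positivity
      have hs1 : s ≤ 1 := by rw [hs, div_le_one hd]; linarith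
      have hc := ed_concave H (1 / 2) q s ⟨by norm_num, by norm_num⟩ hq hs0.le hs1
      have he : (1 - s) * (1 / 2) + s * q = 1 / 4 := by
        have : s * (1 / 2 - q) = 1 / 4 := by rw [hs, div_mul_cancel₀ _ hd.ne']
        linarith
      rw [he] at hc
      nlinarith
    by_cases h5 : 3 / 4 < q
    · refine le_max_of_le_left ?_
      by_contra hlt
      push Not at hlt
      have hd : 0 < q - 1 / 2 := by linarith
      obtain ⟨s, hs⟩ : ∃ s, s = (1 / 4) / (q - 1 / 2) := ⟨_, rfl⟩
      have hs0 : 0 < s := by rw [hs]; positivity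
      have hs1 : s ≤ 1 := by rw [hs, div_le_one hd]; linarith
      have hc := ed_concave H (1 / 2) q s ⟨by norm_num, by norm_num⟩ hq hs0.le hs1
      have he : (1 - s) * (1 / 2) + s * q = 3 / 4 := by
        have : s * (q - 1 / 2) = 1 / 4 := by rw [hs, div_mul_cancel₀ _ hd.ne']
        linarith
      rw [he] at hc
      nlinarith
    push Not at h4 h5
    exact le_max_of_le_right (hmax q ⟨h4, h5⟩)
  by_cases hps : ed H p ≤ ed H (1 / 2)
  · refine ⟨1 / 2, by norm_num, by norm_num, fun q hq => ?_⟩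
    have := hout q hq
    rwa [max_eq_left hps] at this
  · push Not at hps
    refine ⟨p, lt_of_le_of_ne hp.1 ?_, lt_of_le_of_ne hp.2 ?_, fun q hq => ?_⟩
    · intro h
      rw [← h] at hps
      linarith
    · intro h
      rw [h] at hps
      linarith
    · have := hout q hq
      rwa [max_eq_right hps.le] at this

/-- the criterion gives a maximiser in the open interval -/
lemma crit {n : ℕ} (H : SimpleGraph (Fin n)) (M : ℕ) (hP : ∀ r s, M < r + s → Part H r s)
    (hA : ∃ r s, ¬ Part H r s ∧ 3 * M ≤ 6 * r + 2 * s)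
    (hB : ∃ r s, ¬ Part H r s ∧ 3 * M ≤ 2 * r + 6 * s) :
    ∃ p : ℝ, 1 / 4 < p ∧ p < 3 / 4 ∧ ∀ q ∈ Set.Icc (0 : ℝ) 1, ed H q ≤ ed H p := by
  rcases Nat.eq_zero_or_pos M with hM | hM
  · -- at most one vertex
    have hsub : ∀ u v : Fin n, u = v := by
      intro u v
      by_contra huv
      obtain ⟨f, hf⟩ := hP 1 0 (by omega)
      obtain ⟨g, hg⟩ := hP 0 1 (by omega)
      have h1 : f u = f v := by
        rcases f u with a | a
        · rcases f v with b | b
          · rw [Subsingleton.elim a b]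
          · exact Fin.elim0 b
        · exact Fin.elim0 a
      have h2 : g u = g v := by
        rcases g u with a | a
        · exact Fin.elim0 a
        · rcases g v with b | b
          · exact Fin.elim0 b
          · rw [Subsingleton.elim a b]
      have h3 := hf u v huv h1
      have h4 := hg u v huv h2
      rw [h3] at h4
      rcases hfu : f u with a | b
      · rcases hgu : g u with c | d
        · exact Fin.elim0 c
        · rw [hfu, hgu] at h4
          simp at h4
      · exact Fin.elim0 b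
    have h0 : ∀ p, ed H p = 0 := by
      intro p
      unfold ed
      have : {e : ℝ | ∃ (k : ℕ) (vb : Fin k → Bool) (ec : Fin k → Fin k → Fin 3),
          0 < k ∧ (∀ i j, ec i j = ec j i) ∧ ¬ CHom H k vb ec ∧
          e = gval k vb ec p} = ∅ := by
        ext e
        simp only [Set.mem_setOf_eq, Set.mem_empty_iff_false, iff_false]
        rintro ⟨k, vb, ec, hk, hec, hnot, -⟩
        exact hnot ⟨fun _ => ⟨0, hk⟩, fun u v huv => absurd (hsub u v) huv⟩
      rw [this, Real.sInf_empty]
    exact ⟨1 / 2, by norm_num, by norm_num, fun q _ => by rw [h0, h0]⟩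
  · have hM' : (0 : ℝ) < M := by exact_mod_cast hM
    obtain ⟨r, s, hrs, hr⟩ := hA
    obtain ⟨r', s', hrs', hr'⟩ := hB
    have hlow : 1 / (2 * (M : ℝ)) ≤ ed H (1 / 2) := by
      refine le_csInf ⟨_, r + s, _, fun _ _ => 1, by omega, fun _ _ => rfl, no_hom H r s hrs, rfl⟩ ?_
      rintro e ⟨k', vb, ec, hk', hec, hnot, rfl⟩
      exact low H M hM hP k' hk' vb ec hec hnot
    have hR : (3 : ℝ) * M ≤ 6 * r + 2 * s := by exact_mod_cast hr
    have hR' : (3 : ℝ) * M ≤ 2 * r' + 6 * s' := by exact_mod_cast hr'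
    apply max_mid
    · refine ((up H r s (by omega) hrs (1 / 4) (by norm_num) (by norm_num)).trans ?_).trans hlow
      have e : (r : ℝ) / (1 / 4) + s / (1 - 1 / 4) = 4 * r + 4 / 3 * s := by ring
      rw [e]
      apply one_div_le_one_div_of_le (by positivity)
      linarith
    · refine ((up H r' s' (by omega) hrs' (3 / 4) (by norm_num) (by norm_num)).trans ?_).trans hlow
      have e : (r' : ℝ) / (3 / 4) + s' / (1 - 3 / 4) = 4 / 3 * r' + 4 * s' := by ring
      rw [e]
      apply one_div_le_one_div_of_le (by positivity)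
      linarith

/-- a bound for all graphs on `n` vertices with a maximiser in the open interval -/
lemma bound (n : ℕ) : ∃ N : ℕ, ∀ H : SimpleGraph (Fin n),
    (∃ p : ℝ, 1 / 4 < p ∧ p < 3 / 4 ∧ ∀ q ∈ Set.Icc (0 : ℝ) 1, ed H q ≤ ed H p) →
    ∀ N' ≥ N, sSup (edB H N' '' Set.Icc 0 1) = sSup (ed H '' Set.Icc 0 1) := by
  classical
  have h : ∀ H : SimpleGraph (Fin n), ∃ N : ℕ,
      (∃ p : ℝ, 1 / 4 < p ∧ p < 3 / 4 ∧ ∀ q ∈ Set.Icc (0 : ℝ) 1, ed H q ≤ ed H p) →
      ∀ N' ≥ N, sSup (edB H N' '' Set.Icc 0 1) = sSup (ed H '' Set.Icc 0 1) := by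
    intro H
    by_cases hex : ∃ p : ℝ, 1 / 4 < p ∧ p < 3 / 4 ∧ ∀ q ∈ Set.Icc (0 : ℝ) 1, ed H q ≤ ed H p
    · obtain ⟨p, hp1, hp2, hp⟩ := hex
      obtain ⟨N, hN⟩ := two n (min (p - 1 / 4) (3 / 4 - p))
        (lt_min (by linarith) (by linarith))
      refine ⟨N, fun _ => hN H ⟨p, ?_, ?_, hp⟩⟩
      · have := min_le_left (p - 1 / 4) (3 / 4 - p)
        linarith
      · have := min_le_right (p - 1 / 4) (3 / 4 - p)
        linarith
    · exact ⟨0, fun h => absurd h hex⟩
  choose F hF using h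
  refine ⟨Finset.univ.sup F, fun H hH N' hN' => hF H hH N' ?_⟩
  exact (Finset.le_sup (Finset.mem_univ H)).trans hN'

/-- **Main theorem.** -/
theorem result : ∃ φ : ℕ → ℕ,
    -- (1) Q1 for all graphs with a balanced clique spectrum
    (∀ (n : ℕ) (H : SimpleGraph (Fin n)) (M : ℕ), (∀ r s, M < r + s → Part H r s) →
      (∃ r s, ¬ Part H r s ∧ 3 * M ≤ 6 * r + 2 * s) →
      (∃ r s, ¬ Part H r s ∧ 3 * M ≤ 2 * r + 6 * s) →
      ∀ N ≥ φ n, sSup (edB H N '' Set.Icc 0 1) = sSup (ed H '' Set.Icc 0 1)) ∧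
    -- (2) Q1 for all graphs with the same chromatic number as their complement
    (∀ (n : ℕ) (H : SimpleGraph (Fin n)), 0 < n → H.chromaticNumber = Hᶜ.chromaticNumber →
      ∀ N ≥ φ n, sSup (edB H N '' Set.Icc 0 1) = sSup (ed H '' Set.Icc 0 1)) := by
  classical
  choose φ hφ using bound
  have h1 : ∀ (n : ℕ) (H : SimpleGraph (Fin n)) (M : ℕ), (∀ r s, M < r + s → Part H r s) →
      (∃ r s, ¬ Part H r s ∧ 3 * M ≤ 6 * r + 2 * s) →
      (∃ r s, ¬ Part H r s ∧ 3 * M ≤ 2 * r + 6 * s) →
      ∀ N ≥ φ n, sSup (edB H N '' Set.Icc 0 1) = sSup (ed H '' Set.Icc 0 1) :=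
    fun n H M a b c => hφ n H (crit H M a b c)
  refine ⟨φ, h1, fun n H hn hc => ?_⟩
  haveI : Nonempty (Fin n) := ⟨⟨0, hn⟩⟩
  obtain ⟨c, hcH⟩ : ∃ c : ℕ, H.chromaticNumber = c := by
    have h : H.chromaticNumber ≠ ⊤ := by
      rw [SimpleGraph.chromaticNumber_ne_top_iff_exists]
      exact ⟨_, H.colorable_of_fintype⟩
    obtain ⟨c, hc⟩ := ENat.ne_top_iff_exists.1 h
    exact ⟨c, hc.symm⟩
  have hcC : Hᶜ.chromaticNumber = c := by rw [← hc, hcH]
  have hcol : ∀ m, c ≤ m → H.Colorable m := fun m hm =>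
    SimpleGraph.chromaticNumber_le_iff_colorable.1 (by rw [hcH]; exact_mod_cast hm)
  have hcolC : ∀ m, c ≤ m → Hᶜ.Colorable m := fun m hm =>
    SimpleGraph.chromaticNumber_le_iff_colorable.1 (by rw [hcC]; exact_mod_cast hm)
  have hc1 : 1 ≤ c := by
    by_contra h
    have h0 : c = 0 := by omega
    obtain ⟨C⟩ := hcol 0 (by omega)
    exact Fin.elim0 (C ⟨0, hn⟩)
  refine h1 n H (2 * (c - 1)) ?_ ⟨c - 1, 0, ?_, by omega⟩ ⟨0, c - 1, ?_, by omega⟩
  · intro r s hrs
    by_cases hr : c ≤ r
    · obtain ⟨C⟩ := hcol r hr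
      refine ⟨fun u => Sum.inl (C u), fun u v huv h => ?_⟩
      have hC : C u = C v := Sum.inl_injective h
      refine ⟨fun ha => absurd hC (C.valid ha), fun ha => ?_⟩
      simp at ha
    · obtain ⟨C⟩ := hcolC s (by omega)
      refine ⟨fun u => Sum.inr (C u), fun u v huv h => ?_⟩
      have hC : C u = C v := Sum.inr_injective h
      refine ⟨fun _ => rfl, fun _ => ?_⟩
      by_contra ha
      exact C.valid (show Hᶜ.Adj u v from ⟨huv, ha⟩) hC
  · rintro ⟨f, hf⟩
    have : H.Colorable (c - 1) := by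
      have hl : ∀ u, ∃ a, f u = Sum.inl a := by
        intro u
        rcases hfu : f u with a | b
        · exact ⟨a, rfl⟩
        · exact Fin.elim0 b
      choose g hg using hl
      refine ⟨SimpleGraph.Coloring.mk g ?_⟩
      intro u v ha he
      have h2 : f u = f v := by rw [hg u, hg v, he]
      have h3 := (hf u v ha.ne h2).1 ha
      rw [hg u] at h3
      simp at h3
    have := SimpleGraph.chromaticNumber_le_iff_colorable.2 this
    rw [hcH] at this
    have h4 : c ≤ c - 1 := by exact_mod_cast this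
    omega
  · rintro ⟨f, hf⟩
    have : Hᶜ.Colorable (c - 1) := by
      have hl : ∀ u, ∃ a, f u = Sum.inr a := by
        intro u
        rcases hfu : f u with a | b
        · exact Fin.elim0 a
        · exact ⟨b, rfl⟩
      choose g hg using hl
      refine ⟨SimpleGraph.Coloring.mk g ?_⟩
      intro u v ha he
      have h2 : f u = f v := by rw [hg u, hg v, he]
      have h3 := (hf u v ha.ne h2).2 (by rw [hg u]; rfl)
      exact ha.2 h3
    have := SimpleGraph.chromaticNumber_le_iff_colorable.2 this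
    rw [hcC] at this
    have h4 : c ≤ c - 1 := by exact_mod_cast this
    omega

end Pool.Agent.Results.MP_076b30_co.CliqueSpectrum
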